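import Pool.Agent.Y990.OA.SC2

set_option autoImplicit false

open MeasureTheory Set

/-!
Bond percolation on `Z^d`, `d ≥ 3`, for all `p ≥ p_c`, in particular at the critical point: the
expected number of spanning clusters of the cube `{0, ..., n}^d` is at most `C n ^ (d - 1 - ε)`.
-/

namespace Pool.Agent.Results.MP_5629d1_pr.SpanningClusterMean

noncomputable section

/-- Vertices of `Z^d`. -/
abbrev V (d : ℕ) : Type := Fin d → ℤ

/-- The cube `{0, ..., n}^d`. -/
def cube (d n : ℕ) : Set (V d) := {x | ∀ i, 0 ≤ x i ∧ x i ≤ n}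

/-- The open subgraph inside the region `S`: two vertices of `S` at Euclidean distance one are
joined if the edge between them is open. -/
def openGraph {d : ℕ} (ω : Sym2 (V d) → Bool) (S : Set (V d)) : SimpleGraph (V d) where
  Adj x y := ∑ i, |x i - y i| = 1 ∧ x ∈ S ∧ y ∈ S ∧ ω s(x, y) = true
  symm := ⟨fun x y ⟨h1, h2, h3, h4⟩ =>
    ⟨by simpa only [abs_sub_comm] using h1, h3, h2, by rwa [Sym2.eq_swap]⟩⟩
  loopless := ⟨fun x h => by simpa using h.1⟩

/-- The open cluster of the vertex `x` of `S` inside the region `S` (empty if `x` is not in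
`S`). -/
def cluster {d : ℕ} (ω : Sym2 (V d) → Bool) (S : Set (V d)) (x : V d) : Set (V d) :=
  {y | x ∈ S ∧ (openGraph ω S).Reachable x y}

/-- Bond percolation with parameter `p`: all edges are open with probability `p`, independently
(the coordinates of the pairs which are not edges play no role). -/
def P (d : ℕ) (p : unitInterval) : Measure (Sym2 (V d) → Bool) :=
  Measure.infinitePi (fun _ : Sym2 (V d) =>
    ENNReal.ofReal (p : ℝ) • Measure.dirac true + ENNReal.ofReal (1 - (p : ℝ)) • Measure.dirac false)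

/-- The percolation probability `θ_d(p)`. -/
def theta (d : ℕ) (p : unitInterval) : ℝ := (P d p).real {ω | (cluster ω univ 0).Infinite}

/-- The critical point `p_c(d)`, the supremum of the parameters with `θ_d(p) = 0`. -/
def pc (d : ℕ) : unitInterval :=
  ⟨sSup {t : ℝ | ∃ q : unitInterval, (q : ℝ) = t ∧ theta d q = 0}, by
    constructor
    · apply Real.sSup_nonneg
      rintro x ⟨q, rfl, _⟩
      exact q.2.1
    · apply Real.sSup_le
      · rintro x ⟨q, rfl, _⟩
        exact q.2.2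
      · exact zero_le_one⟩

/-- The spanning clusters of the cube in the direction of the axis `i`: the open clusters of the
cube containing a vertex with `i`-th coordinate `0` and a vertex with `i`-th coordinate `n`. -/
def spanning (d : ℕ) (i : Fin d) (n : ℕ) (ω : Sym2 (V d) → Bool) : Set (Set (V d)) :=
  {C | ∃ x ∈ cube d n, x i = 0 ∧ C = cluster ω (cube d n) x ∧ ∃ y ∈ C, y i = n}

lemma nd_mem {d : ℕ} {ω : Sym2 (V d) → Bool} {x y : V d} :
    (∀ c ∈ (Pool.Agent.Y990.CB.bondM d).nd x y, ω c = true) ↔ ω s(x, y) = true := by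
  show (∀ c : Sym2 (V d), c ∈ ({s(x, y)} : Finset (Sym2 (V d))) → ω c = true) ↔ _
  simp only [Finset.mem_singleton, forall_eq]

open Pool.Agent.Y990.CB in
lemma adj_iff {d : ℕ} (ω : Sym2 (V d) → Bool) (S : Set (V d)) (x y : V d) :
    (openGraph ω S).Adj x y ↔ (G (bondM d) ω S).Adj x y := by
  show (∑ i, |x i - y i| = 1 ∧ x ∈ S ∧ y ∈ S ∧ ω s(x, y) = true) ↔
    (∑ i, |x i - y i| = 1 ∧ x ∈ S ∧ y ∈ S ∧ ∀ c ∈ (bondM d).nd x y, ω c = true)
  rw [nd_mem]

open Pool.Agent.Y990.CB in
lemma graph_eq {d : ℕ} (ω : Sym2 (V d) → Bool) (S : Set (V d)) :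
    openGraph ω S = G (bondM d) ω S := by
  ext x y
  exact adj_iff ω S x y

open Pool.Agent.Y990.CB in
lemma cluster_eq {d : ℕ} (ω : Sym2 (V d) → Bool) {S : Set (V d)} {x : V d} (hx : x ∈ S) :
    cluster ω S x = cl (bondM d) ω S x := by
  ext y
  constructor
  · rintro ⟨-, h⟩
    rw [graph_eq] at h
    exact h
  · intro h
    refine ⟨hx, ?_⟩
    rw [graph_eq]
    exact h

open Pool.Agent.Y990.CB in
lemma infinite_iff {d : ℕ} (ω : Sym2 (V d) → Bool) (x : V d) :
    (cluster ω univ x).Infinite ↔ ω ∈ Perc (bondM d) x := by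
  rw [cluster_eq ω (mem_univ x)]
  exact Iff.rfl

open Pool.Agent.Y990.CB in
lemma P_eq (d : ℕ) (p : unitInterval) : P d p = mu (bondM d) p := rfl

open Pool.Agent.Y990.CB in
lemma theta_eq (d : ℕ) (p : unitInterval) : theta d p = th (bondM d) p := by
  unfold theta th
  rw [P_eq]
  congr 1
  ext ω
  exact infinite_iff ω 0

open Pool.Agent.Y990.CB in
lemma pc_eq (d : ℕ) : pc d = Pool.Agent.Y990.CB.pc (bondM d) := by
  apply Subtype.ext
  show sSup {t : ℝ | ∃ q : unitInterval, (q : ℝ) = t ∧ theta d q = 0} =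
    sSup {x : ℝ | ∃ q : unitInterval, (q : ℝ) = x ∧ th (bondM d) q = 0}
  simp only [theta_eq]

open Pool.Agent.Y990.CB in
lemma spanning_eq (d : ℕ) (i : Fin d) (n : ℕ) (ω : Sym2 (V d) → Bool) :
    spanning d i n ω = Pool.Agent.Y990.OA.Sp (bondM d) i n ω := by
  ext X
  constructor
  · rintro ⟨x, hx, hxi, hX, hy⟩
    exact ⟨x, hx, hxi, hX.trans (cluster_eq ω hx), hy⟩
  · rintro ⟨x, hx, hxi, hX, hy⟩
    exact ⟨x, hx, hxi, hX.trans (cluster_eq ω hx).symm, hy⟩

/-- **Expected number of spanning clusters.**  For every `d ≥ 3` there are `ε > 0` and `C` such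
that for all `n ≥ 1`, all axes `i` and all `p ≥ p_c` the number of the spanning clusters of the cube
`{0, ..., n}^d` (which is always finite) has expectation at most `C n ^ (d - 1 - ε)`. -/
theorem result (d : ℕ) (hd : 3 ≤ d) : ∃ ε C : ℝ, 0 < ε ∧
    ∀ (n : ℕ) (i : Fin d) (p : unitInterval), 1 ≤ n → pc d ≤ p →
      (∀ ω, (spanning d i n ω).Finite) ∧
      Integrable (fun ω => ((spanning d i n ω).ncard : ℝ)) (P d p) ∧
      ∫ ω, ((spanning d i n ω).ncard : ℝ) ∂(P d p) ≤ C * (n : ℝ) ^ ((d : ℝ) - 1 - ε) := by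
  obtain ⟨C, ε, hε, h⟩ := Pool.Agent.Y990.OA.span_main hd (Pool.Agent.Y990.CB.bondM d)
    Pool.Agent.Y990.CB.nd_bond (Pool.Agent.Y448.CB2.qm_bond d)
  refine ⟨ε, C, hε, fun n i p hn hp => ⟨fun ω => ?_, ?_⟩⟩
  · refine Set.Finite.subset
      ((Pool.Agent.Y990.OA.Qb_finite d n).image (fun x => cluster ω (cube d n) x)) ?_
    rintro X ⟨x, hx, -, hX, -⟩
    exact ⟨x, hx, hX.symm⟩
  · have h1 := h n i p hn (by rw [← pc_eq]; exact hp)
    have e : (fun ω => ((spanning d i n ω).ncard : ℝ)) =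
        fun ω => ((Pool.Agent.Y990.OA.Sp (Pool.Agent.Y990.CB.bondM d) i n ω).ncard : ℝ) := by
      funext ω
      rw [spanning_eq]
    rw [e, P_eq]
    exact h1

end

end Pool.Agent.Results.MP_5629d1_pr.SpanningClusterMean
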